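import Pool.Agent.N993.CP.Jac

/-!
# The Tate conjecture for the powers of the Jacobians of Fermat curves over finite fields

Let `k` be a finite field with `q` elements and of characteristic `p`, let `m` divide `q - 1`, and let
`J` be the Jacobian of the Fermat curve `x ^ m + y ^ m + z ^ m = 0` over `k`. The eigenvalues of the
Frobenius on `H^1(J)` are, up to roots of unity, the Jacobi sums `J(θ ^ a, θ ^ b)`, where `θ` is a
multiplicative character of order `m` and `x = (a, b, c)` runs through the triples of nonzero residues
modulo `m` with sum zero (`CurveLine`); the eigenline `V(x)` is the one on which the automorphisms act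
through `x` (Weil). Let `A` be an abelian variety over the algebraic closure of `k` whose simple factors
are isogenous to factors of `J`, with any multiplicities. The Tate classes on `A` in degree `2 i` are
spanned by products of `2 i` eigenvectors in the lines `V(x)` such that the product of the `2 i` Jacobi
sums is `q ^ i` times a root of unity. Such a product is, in the product of `2 i` Fermat curves, the
line of the union of the triples in the cohomology of the Fermat variety of degree `m` and dimension
`6 i - 2` (Shioda), by an algebraic correspondence.

The theorem: let `m = k m0` with `m0 ≤ 135` different from 87, 95, 105, 111, 116, 123 and let `k` be a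
product of odd primes dividing `m0`; for instance let `m ≤ 86`. Then, for every family of `2 i` triples
such that a power of the product of the Jacobi sums is the same power of `q ^ i`, the union of the
triples is, after multiplication by some `N` prime to `p`, generated by the members of the base `CBase`,
for which see `MP_af4e75_ag.FermatSmallDegrees`; so all Tate classes on `A` are algebraic, and, the
Frobenius being semisimple on `A`, `E ^ j (V) = A ^ j (V)` for all `j` and for every abelian variety `V`
over a finite field which becomes isogenous to such an `A`.

The hypothesis is about Jacobi sums; that it implies the condition of Stickelberger on the union of the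
triples is `Pool.Agent.N214.HB.isTate_of_gauss`, by helper214.
-/

namespace Pool.Agent.Results.MP_950c68_ag.FermatJacobians

open Pool.Agent.H916T Pool.Agent.N992 Pool.Agent.N993.CP

theorem result {k : Type} [Field k] [Fintype k] (p : ℕ) [Fact p.Prime] [CharP k p] (m : ℕ)
    [NeZero m] (hmk : m ∣ Fintype.card k - 1) (hm : SmallDegree m) (θ : MulChar k ℂ)
    (hθ : orderOf θ = m) (L : Multiset (ZMod m × ZMod m × ZMod m))
    (hL : ∀ x ∈ L, CurveLine m x) (i : ℕ) (hi : 0 < i) (hcard : Multiset.card L = 2 * i)
    (e : ℕ) (he : 0 < e)
    (h : ((L.map fun x => jacobiSum (θ ^ x.1.val) (θ ^ x.2.1.val)).prod) ^ e =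
      ((Fintype.card k : ℂ) ^ i) ^ e) :
    ∃ N : ℕ, 0 < N ∧ p.Coprime N ∧
      Generated (N * m) (CBase p (N * m))
        ((L.bind fun x => {x.1, x.2.1, x.2.2}).map
          fun a => ((N * a.val : ℕ) : ZMod (N * m))) :=
  jacobian hmk hm θ hθ L hL i hi hcard e he h

end Pool.Agent.Results.MP_950c68_ag.FermatJacobians
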