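import Mathlib
import Pool.Agent.N830.FT.H
import Pool.Agent.N830.FT.Cnt2

/-!
# The Tate conjecture for abelian varieties over finite fields: reduction to finitely many classes of
degree four

We fix a prime number `p` and an isomorphism `ν` of an algebraic closure of `ℚ_p` with `ℂ`. Over an
algebraic closure of the field with `p` elements each abelian variety is isogenous to the reduction of
an abelian variety of CM type (Honda, Tate); so an abelian variety over a finite field is modelled by
`RedAV p ν`: a finite product of abelian varieties of CM types `(E i, Φ i)`, with Weil numbers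
`π i ∈ E i` that satisfy the formula of Shimura and Taniyama. The classes of algebraic cycles form a
system `𝒜 : TSys p ν Ω` (`Ω` an algebraic closure of `ℚ_ℓ`): it contains the Tate classes of degree
two (Tate), and it is stable under linear combinations, cup products, pull-backs and push-forwards.
`AllTate 𝒜 Y` says that all Tate classes on `Y`, of all degrees and over all finite extensions of the
ground field, belong to `𝒜`.

Let `B` be an abelian variety of CM type, for instance an elliptic curve, and let `L` be a CM field,
Galois over `ℚ` of degree `2 m`, with an embedding `ι` of the field of `B` and complex embeddings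
`j`, `j'` (`Frame B`). For three CM types `Φ 0`, `Φ 1`, `Φ 2` of `L` such that `Φ 0 ∩ Φ 1 = {j}`, the
type `Φ 2` and the type induced from `B` have exactly the complex conjugate of `j` in common and
`j' ∈ Φ 0` (`Frame.Datum`), the class `Tr (x₀ ∧ x₁ ∧ x₂ ∧ ι t)` is a Tate class of degree four on each
reduction of the product `A₀ × A₁ × A₂ × B` of the abelian varieties of CM types `(L, Φ i)` and `B`.

Theorem. The Tate conjecture is true (all Tate classes belong to `𝒜`) for all abelian varieties whose
factors have complex multiplication by subfields of `L`, in all degrees, if and only if the following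
holds (`InT`): for each slope type in the finite set `slopeTypes p ν F` the class
`Tr (x₀ ∧ x₁ ∧ x₂ ∧ ι t)` belongs to `𝒜` on *some* reduction of `A₀ × A₁ × A₂ × B` for *some* CM types
`Φ i` such that `A₀`, `A₁`, `A₂` have the slopes prescribed by the slope type. The number of the slope
types is at most `n (n + 1) ^ (m / n - 1)`, where `n` is the local degree of `L` at the places above
`p`, and at most `2 ^ (m - 2) - 1`. So if `L` has only two places above `p` there are at most `m`
classes. Second part: the Tate conjecture is true for all abelian varieties over finite fields of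
characteristic `p` if and only if each `L` is contained in some `L'` such that the classes of degree
four which belong to `L'` are in `𝒜`.
-/

namespace Pool.Agent.Results.MP_950c68_ag.FiniteListOfClasses

open Module Pool.Agent.W495.TA Pool.Agent.R937.TZ Pool.Agent.N830.FT
open Pool.Agent.W547.KB (CMPair)

/-- Reduction of the Tate conjecture for abelian varieties over finite fields to finitely many
classes of degree four. -/
theorem result (p : ℕ) [Fact p.Prime] (ν : PadicAlgCl p ≃+* ℂ) (Ω : Type) [Field Ω]
    [IsAlgClosed Ω] [CharZero Ω] (B : CMPair) :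
    (∀ F : Frame B,
      (∀ 𝒜 : TSys p ν Ω, (∀ Y : RedAV p ν, (∀ i, Nonempty ((Y.X.factor i).E →+* F.L)) →
        AllTate 𝒜 Y) ↔ InT F 𝒜) ∧
      (∀ d : F.Datum, Nonempty (Red p ν d) ∧ ∀ r : Red p ν d, ∃ g : CF Ω r.Y (Fin 4),
        (∀ g', r.IsClass g' ↔ g' = g) ∧ ∃ s, 0 < s ∧ IsTateClass Ω r.Y s 2 g) ∧
      (slopeTypes p ν F).Finite ∧
      ∀ m n : ℕ, finrank ℚ F.L = 2 * m → n = Nat.card {φ // SamePlace p ν F.j φ} →
        (slopeTypes p ν F).ncard ≤ n * (n + 1) ^ (m / n - 1) ∧
        (F.j' ≠ F.j → (slopeTypes p ν F).ncard ≤ 2 ^ (m - 2) - 1)) ∧
    ∀ 𝒜 : TSys p ν Ω, (∀ Y : RedAV p ν, AllTate 𝒜 Y) ↔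
      ∀ F₀ : Frame B, ∃ F : Frame B, Nonempty (F₀.L →+* F.L) ∧ InT F 𝒜 :=
  ⟨fun F => ⟨iff_F F, fun d => ⟨exists_Red p ν d, fun r => exists_class r⟩,
    slopeTypes_finite p ν F, fun _ _ hm hn => ⟨ncard_le_two p ν F hm hn, fun h =>
      ncard_le_one p ν F h hm⟩⟩, iff_all B⟩

end Pool.Agent.Results.MP_950c68_ag.FiniteListOfClasses
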