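import Pool.Agent.N876.FL.Crit

/-!
# The Tate conjecture for products of cyclic coverings with all varieties of small level

Let `k` be a finite field (or a finitely generated field of any characteristic), with absolute Galois
group `Γ`, and let `X_1, …, X_r` be smooth projective varieties over `k`, of any dimensions
`n_i ≥ 1`, which are models of cyclic coverings

  `w ^ N_i = ∏ l_{i,k} (x) ^ a_{i,k}`

of the projective spaces of dimension `n_i`, branched along hyperplanes `l_{i,k} = 0`, with exponents
prime to `N_i`. Let `Y` be a smooth projective variety over `k`, of any dimension.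

Let `κ` be the finite field `k` (or the residue field of a closed point of a model of `k` over which
everything has good reduction), with `q = c ^ f` elements and geometric Frobenius `σ`, such that `N_i`
divides `q - 1`. We assume (`IsCyclicCovering`): the cohomology of `X_i` is
the sum of a space with a basis of classes of algebraic cycles defined over `k` (the invariants of the
covering group), and of a space `W_i` in degree `n_i` without invariants, and the trace formula of
Grothendieck and Lefschetz holds for the compositions of the Frobenius with the elements of the covering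
group. This is the case if the divisor `∏ l_{i,k} = 0` has normal crossings, for every equivariant
toroidal resolution of the normalisation of projective space in the function field.

`Y` is said to be of level `≤ λ` (`IsOfLevel`) if `q ^ λ b / b̄` is an algebraic integer for all
eigenvalues `b` of the Frobenius. This is true if `dim Y ≤ λ` (Deligne), and (by Mazur and Ogus) for
reductions of varieties with `h ^ {p, q} = 0` for `|p - q| > λ`; for instance all products of rational
varieties and a variety of dimension `λ`, or all products of surfaces with `p_g = q = 0` and a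
variety of dimension `λ`.

For an integer `j` let `weight X j` be the sum of the fractional parts of `j a_k / N`, replaced by its
mean over the orbit `j, c j, …, c ^ (f - 1) j`. The condition `IsSmall N λ` says: for every nonempty
set `I` of indices and all `j_i` not divisible by `N_i` (`i ∈ I`) there is a `u` prime to `N` with
`∑_{i ∈ I} weight X_i (u j_i) + λ / 2 < ∑_{i ∈ I} (n_i / 2 + 1)`. If the `N_i` are pairwise coprime, then
it is sufficient that `weight X_i g + λ / 2 < n_i / 2 + 1` for all `i` and all proper divisors `g` of
`N_i`.

**Theorem.** Assume `IsSmall N λ`, where `N` is a common multiple of the `N_i`. Let `Y` be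
**any** variety of level `≤ λ`. Then, for every finite extension `k'` of `k`, the Tate classes over
`k'` of `X_1 × ⋯ × X_r × Y` of codimension `w` are **exactly** the linear combinations of the
products `e_1 × ⋯ × e_r × b`, where the `e_i` are the classes of algebraic cycles on `X_i` and
`b` is a Tate class over `k'` of `Y` of codimension `w - ∑ codim e_i`. In particular **the Tate
conjecture holds for `X_1 × ⋯ × X_r × Y` if it holds for `Y`**, in all codimensions and over all
finite extensions. The same is true for the generalised eigenspaces of the powers of the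
Frobenius, so the orders of the poles of the zeta functions of `X_1 × ⋯ × X_r × Y` at all integers
are the sums of those for `Y` which are given by the cycles on the `X_i`.

**Example.** Let `N` be a prime number, `c ≡ 1 mod N`, and let `X` be the covering
`w ^ N = l_1 ⋯ l_N` of the projective space of dimension `n`. Then the theorem holds with `λ = n - 1`,
so for **all** varieties `Y` of dimension `< n` the Tate conjecture for `X × Y` is equivalent to the
one for `Y`. For instance if `n ≥ 3` it is true for `X × Y`, in all codimensions, if `Y` is a K3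
surface, an abelian surface or a product of two curves (possibly of large genus and covered by other
coverings of degree `N`). (For `Y = X` the classes of the graphs of the automorphisms of the covering
are not of this form, so the bound for the dimension of `Y` is best possible.) In general, for coverings `w ^ N = l_1 ⋯ l_s` with `c ≡ 1 mod N`
and any `N`, the condition is `λ + 2 s / p < n + 2`, where `p` is the smallest prime factor of `N`.

The result `MP_0fca13_ag.HyperplaneCoverings` needs that the cyclotomic polynomial of order `N` is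
irreducible over the field of the Frobenius eigenvalues of `Y`, which excludes all `Y` related
to roots of unity of order `N` (for instance other coverings of degree `N`, Fermat varieties of
degree `N`, abelian varieties with complex multiplication by this field). Here there is
**no condition at all on the field of the Frobenius eigenvalues of `Y`**.

The proof: let `α_i` be eigenvalues of `σ` on `W_i` (`i ∈ I`), `b` an eigenvalue on the cohomology of `Y`,
and suppose that `∏ α_i b` is a power of `q` times a root of unity. By the theorem of Stickelberger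
on Gauss sums there is an embedding of the algebraic numbers into an algebraic closure of the field of
`c`-adic numbers such that the valuations of the `α_i` add up to more than `(∑ n_i + λ) / 2`. The
valuation of `b` is at least `(j - λ) / 2`, if its weight is `j`. So the sum of the valuations is
larger than half of the weight of the product.

Purity (Deligne), the trace formula and the decomposition of the cohomology of the `X_i` are
hypotheses.

helper876; built on the library of the starting files (estimates of sums over hyperplane
arrangements by Gauss sums: helper528 and helpers 800, 883, 135, 563, 271, 540, 400, 999, 782, 605, 346;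
traces on eigenspaces: helper117).
-/

set_option autoImplicit false

open Finset Polynomial TensorProduct

namespace Pool.Agent.Results.MP_950c68_ag.ProductsOfSmallLevel

/-- A cyclic covering `w ^ N = ∏ l_k (x) ^ a_k` of the projective space of dimension `n`, and a root of
unity `z`. -/
structure Covering (κ : Type) [Field κ] : Type where
  N : ℕ
  n : ℕ
  s : ℕ
  l : Fin s → Fin (n + 1) → κ
  a : Fin s → ℕ
  z : κ

/-- `z` has order `N ≥ 2`, the exponents are prime to `N` and their sum is divisible by `N`. -/
structure Covering.IsAdmissible {κ : Type} [Field κ] (X : Covering κ) : Prop where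
  two_le : 2 ≤ X.N
  root : IsPrimitiveRoot X.z X.N
  coprime : ∀ k, (X.a k).Coprime X.N
  dvd : X.N ∣ ∑ k, X.a k

/-- The value of the form `∏ l_k ^ a_k` at a vector with coordinates in `L`. -/
def Covering.value {κ : Type} [Field κ] (X : Covering κ) (L : Type) [Field L] [Algebra κ L]
    (x : Fin (X.n + 1) → L) : L :=
  ∏ k, (∑ t, algebraMap κ L (X.l k t) * x t) ^ X.a k

/-- The number of vectors over `L` where the form is not zero. -/
noncomputable def Covering.openCount {κ : Type} [Field κ] (X : Covering κ) (L : Type) [Field L]
    [Algebra κ L] : ℕ :=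
  Set.ncard {x : Fin (X.n + 1) → L | X.value L x ≠ 0}

/-- The number of vectors over `L` where the form is not zero and its power with the exponent
`(|L| - 1) / N` is `z ^ i`. -/
noncomputable def Covering.fixCount {κ : Type} [Field κ] (X : Covering κ) (L : Type) [Field L]
    [Fintype L] [Algebra κ L] (i : ℕ) : ℕ :=
  Set.ncard {x : Fin (X.n + 1) → L | X.value L x ≠ 0 ∧
    (X.value L x) ^ ((Fintype.card L - 1) / X.N) = algebraMap κ L X.z ^ i}

/-- `W` is the part without invariants of the cohomology of degree `n` of a smooth projective model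
of the covering, with the Frobenius `Φ` and the generator `g` of the covering group. The trace
of `Φ ^ [L : κ] g ^ i` is up to the sign the difference of the number of fixed points over the open
set `∏ l_k ≠ 0` of projective space (`N` points over each point where the form has the power residue
symbol `z ^ i`) and of the number of the points of this open set. -/
structure IsCyclicCovering {κ : Type} [Field κ] (X : Covering κ) {W : Type} [AddCommGroup W]
    [Module ℂ W] (Φ g : Module.End ℂ W) : Prop where
  commute : Commute Φ g
  order : g ^ X.N = 1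
  invariants : ∀ w, g w = w → w = 0
  lefschetz : ∀ (L : Type) [Field L] [Fintype L] [Algebra κ L] (i : ℕ),
    ((Fintype.card L : ℂ) - 1) *
        ((-1) ^ X.n * LinearMap.trace ℂ W (Φ ^ Module.finrank κ L * g ^ i)) =
      (X.N : ℂ) * (X.fixCount L i : ℂ) - (X.openCount L : ℂ)

/-- The mean over `j, c j, …, c ^ (f - 1) j` of the sum of the fractional parts of `j a_k / N`. -/
def Covering.weight {κ : Type} [Field κ] (X : Covering κ) (c f j : ℕ) : ℚ :=
  (∑ k, ∑ t ∈ range f, (((j * X.a k * c ^ t) % X.N : ℕ) : ℚ)) / (f * X.N)

/-- The condition on the exponents. -/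
def IsSmall {κ : Type} [Field κ] {ι : Type} (X : ι → Covering κ) (c f N lam : ℕ) : Prop :=
  ∀ I : Finset ι, I.Nonempty → ∀ j : ι → ℕ, (∀ i ∈ I, ¬ (X i).N ∣ j i) →
    ∃ u : ℕ, u.Coprime N ∧
      ∑ i ∈ I, (X i).weight c f (u * j i) + (lam : ℚ) / 2 < ∑ i ∈ I, (((X i).n : ℚ) / 2 + 1)

section galois

variable {Γ : Type} [Group Γ] {K W : Type} [AddCommGroup W] [Module ℂ W]

/-- The action of `γ` on the cohomology of `X`: on the classes of algebraic cycles of codimension
`codim k` by the power of `χ` with this exponent, and on `W` by `ρ`. -/
noncomputable def cohomologyAction (χ : Γ →* ℂˣ) (codim : K → ℕ) (ρ : Γ →* Module.End ℂ W) (γ : Γ) :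
    Module.End ℂ ((K → ℂ) × W) :=
  LinearMap.prodMap (LinearMap.pi fun k => (((χ γ : ℂˣ) : ℂ) ^ codim k) • LinearMap.proj k) (ρ γ)

end galois

section product

variable {Γ : Type} [Group Γ] {ι : Type} {K W : ι → Type}
  [∀ i, AddCommGroup (W i)] [∀ i, Module ℂ (W i)] {B : Type} [AddCommGroup B] [Module ℂ B]

/-- The cohomology of the product of the `X_i` and of `Y` (Künneth formula), with complex
coefficients. -/
abbrev ProductCohomology {ι : Type} (K W : ι → Type) [∀ i, AddCommGroup (W i)]
    [∀ i, Module ℂ (W i)] (B : Type) [AddCommGroup B] [Module ℂ B] : Type :=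
  (⨂[ℂ] i, ((K i → ℂ) × W i)) ⊗[ℂ] B

/-- The action of `γ` on the cohomology of the product. -/
noncomputable def productAction (χ : Γ →* ℂˣ) (codim : ∀ i, K i → ℕ)
    (ρ : ∀ i, Γ →* Module.End ℂ (W i)) (ρY : Γ →* Module.End ℂ B) (γ : Γ) :
    Module.End ℂ (ProductCohomology K W B) :=
  TensorProduct.map
    (PiTensorProduct.map fun i => cohomologyAction χ (codim i) (ρ i) γ) (ρY γ)

/-- The product of the classes of the cycles with the indices `k i` and of the class `b` on `Y`. -/
noncomputable def product [∀ i, DecidableEq (K i)] (k : ∀ i, K i) (b : B) :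
    ProductCohomology K W B :=
  (⨂ₜ[ℂ] i, ((Pi.single (k i) 1, 0) : (K i → ℂ) × W i)) ⊗ₜ[ℂ] b

/-- `v` is a linear combination of products `e_1 × ⋯ × e_r × b` of the classes of cycles on the
`X_i` and of a class `b` on `Y` such that `P (w - codim) b` holds. -/
def IsCombination [∀ i, DecidableEq (K i)] [Fintype ι] (codim : ∀ i, K i → ℕ) (P : ℕ → B → Prop)
    (w : ℕ) (v : ProductCohomology K W B) : Prop :=
  v ∈ Submodule.span ℂ {t | ∃ (k : ∀ i, K i) (b : B), ∑ i, codim i (k i) ≤ w ∧
    P (w - ∑ i, codim i (k i)) b ∧ product k b = t}

end product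

/-- The elements of `Γ'` act on `v` by the power `w` of `χ`: `v` is a Tate class of codimension `w` over
the extension with the group `Γ'`. -/
def IsTateClass {Γ : Type} [Group Γ] (χ : Γ →* ℂˣ) (Γ' : Subgroup Γ) {V : Type} [AddCommGroup V]
    [Module ℂ V] (action : Γ → Module.End ℂ V) (w : ℕ) (v : V) : Prop :=
  ∀ γ ∈ Γ', action γ v = ((χ γ : ℂˣ) : ℂ) ^ w • v

/-- `v` is in the generalised eigenspace of `Φ ^ m` with the eigenvalue `q ^ (m w)`. -/
def IsGeneralTateClass (q m : ℕ) {V : Type} [AddCommGroup V] [Module ℂ V] (Φ : Module.End ℂ V)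
    (w : ℕ) (v : V) : Prop :=
  v ∈ Module.End.maxGenEigenspace (Φ ^ m) ((q : ℂ) ^ (m * w))

/-- The theorem of Deligne for the cohomology `B` of `Y`. -/
def IsPure (q : ℕ) {B : Type} [AddCommGroup B] [Module ℂ B] (Φ : Module.End ℂ B) : Prop :=
  ∀ β, Φ.HasEigenvalue β → IsAlgebraic ℚ β ∧ ∃ j : ℕ, ‖β‖ ^ 2 = (q : ℝ) ^ j

/-- The cohomology `B` of `Y` is of level at most `lam`: the quotients of the eigenvalues of the
Frobenius and their complex conjugates become algebraic integers after multiplication with
`q ^ lam`. -/
def IsOfLevel (q lam : ℕ) {B : Type} [AddCommGroup B] [Module ℂ B] (Φ : Module.End ℂ B) : Prop :=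
  ∀ β, Φ.HasEigenvalue β → IsIntegral ℤ ((q : ℂ) ^ lam * β / starRingEnd ℂ β)

/-- The theorem on Tate classes for products with all varieties of level at most `lam`, for all data
over `κ`. -/
def TateTheorem {κ : Type} [Field κ] [Fintype κ] {ι : Type} [Fintype ι] [DecidableEq ι]
    (X : ι → Covering κ) (lam : ℕ) : Prop :=
  ∀ {Γ : Type} [Group Γ] (χ : Γ →* ℂˣ) (σ : Γ), ((χ σ : ℂˣ) : ℂ) = (Fintype.card κ : ℂ) →
  ∀ {K W : ι → Type} [∀ i, Fintype (K i)] [∀ i, DecidableEq (K i)] [∀ i, AddCommGroup (W i)]
    [∀ i, Module ℂ (W i)] [∀ i, FiniteDimensional ℂ (W i)] (codim : ∀ i, K i → ℕ)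
    (ρ : ∀ i, Γ →* Module.End ℂ (W i)) (g : ∀ i, Module.End ℂ (W i)),
    (∀ i, IsCyclicCovering (X i) (ρ i σ) (g i)) →
    (∀ i (α : ℂ), (ρ i σ).HasEigenvalue α → ‖α‖ ^ 2 = (Fintype.card κ : ℝ) ^ (X i).n) →
  ∀ {B : Type} [AddCommGroup B] [Module ℂ B] [FiniteDimensional ℂ B]
    (ρY : Γ →* Module.End ℂ B), IsPure (Fintype.card κ) (ρY σ) →
    IsOfLevel (Fintype.card κ) lam (ρY σ) →
    -- Tate classes over finite extensions
    (∀ (Γ' : Subgroup Γ) [Γ'.FiniteIndex] (w : ℕ) (v : ProductCohomology K W B),
      IsTateClass χ Γ' (productAction χ codim ρ ρY) w v ↔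
        IsCombination codim (IsTateClass χ Γ' ρY) w v) ∧
    -- generalised eigenspaces of the powers of the Frobenius
    (∀ (m w : ℕ), 0 < m → ∀ v : ProductCohomology K W B,
      IsGeneralTateClass (Fintype.card κ) m (productAction χ codim ρ ρY σ) w v ↔
        IsCombination codim (IsGeneralTateClass (Fintype.card κ) m (ρY σ)) w v)

/-- **The Tate conjecture for products of cyclic coverings branched along hyperplanes with arbitrary
varieties of small level.** -/
theorem result (c : ℕ) [Fact c.Prime] (κ : Type) [Field κ] [Fintype κ] [CharP κ c] (f : ℕ)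
    (hf : Fintype.card κ = c ^ f) {ι : Type} [Fintype ι] [DecidableEq ι] (X : ι → Covering κ)
    (hX : ∀ i, (X i).IsAdmissible) (lam : ℕ) :
    -- the theorem on Tate classes and on generalised Tate classes
    (∀ (N : ℕ), 0 < N → (∀ i, (X i).N ∣ N) → IsSmall X c f N lam → TateTheorem X lam) ∧
    -- pairwise coprime degrees: the proper divisors are sufficient
    ((∀ i i', i ≠ i' → ((X i).N).Coprime (X i').N) →
      (∀ i g, g ∣ (X i).N → g < (X i).N →
        (X i).weight c f g + (lam : ℚ) / 2 < ((X i).n : ℚ) / 2 + 1) →
      IsSmall X c f (∏ i, (X i).N) lam) ∧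
    -- `c ≡ 1`
    (∀ i, c % (X i).N = 1 → ∀ j,
      (X i).weight c f j = ((∑ k, (j * (X i).a k) % (X i).N : ℕ) : ℚ) / (X i).N) := by
  have hf0 : 0 < f := by
    rcases Nat.eq_zero_or_pos f with h | h
    · rw [h, pow_zero] at hf
      have := Fintype.one_lt_card (α := κ)
      omega
    · exact h
  refine ⟨?_, ?_, ?_⟩
  · intro N hN hdN hsmall Γ _ χ σ hσ K W _ _ _ _ _ codim ρ g hcov hpure B _ _ _ ρY hY hlev
    have hsmall' : ∀ I : Finset ι, I.Nonempty → Pool.Agent.N876.UV.SmallI c f N lam
        (fun i => (X i).N) (fun i => (X i).n) (fun i => (X i).s) (fun i => (X i).a) I := by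
      intro I hI j hj
      obtain ⟨u, hu, hlt⟩ := hsmall I hI j hj
      refine ⟨u, hu, Pool.Agent.N876.UV.weight_conv' hf0 hN hdN I
        (fun i => ∑ k, ∑ t ∈ range f, (u * j i * (X i).a k * c ^ t) % (X i).N) ?_⟩
      refine lt_of_le_of_lt (le_of_eq ?_) hlt
      congr 1
      refine sum_congr rfl fun i _ => ?_
      unfold Covering.weight
      push_cast
      rfl
    have hcov' : ∀ i, Pool.Agent.N876.TC.IsCov (X i).N (X i).l (X i).a (X i).z (ρ i σ) (g i) :=
      fun i => ⟨(hcov i).commute, (hcov i).order, (hcov i).invariants,
        fun L _ _ _ t => (hcov i).lefschetz L t⟩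
    have hres : Pool.Agent.N876.FL.NoRes (Fintype.card κ) (fun i => ρ i σ) (ρY σ) :=
      Pool.Agent.N876.FL.nores_level hN (fun i => (hX i).two_le) hdN κ hf
        (fun i => (hX i).root) (fun i => (X i).l) (fun i => (X i).a)
        (fun i => (hX i).coprime) hcov' hpure hsmall' hY hlev
    have hq0 : (Fintype.card κ : ℂ) ≠ 0 := by exact_mod_cast Fintype.card_ne_zero
    have hq1 : 1 < Fintype.card κ := Fintype.one_lt_card
    refine ⟨?_, ?_⟩
    · intro Γ' _ w v
      constructor
      · intro hv
        obtain ⟨h1, h2⟩ := Pool.Agent.N876.FL.gal_tate' hq1 χ σ hσ ρ ρY hres hY codim Γ' w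
          (v := v) hv
        rw [h1]
        refine Submodule.sum_mem _ fun k _ => ?_
        rcases h2 k with ⟨h3, h4⟩ | h3
        · exact Submodule.subset_span ⟨k, _, h3, h4, rfl⟩
        · rw [h3, TensorProduct.tmul_zero]
          exact Submodule.zero_mem _
      · intro hv γ hγ
        induction hv using Submodule.span_induction with
        | mem t ht =>
          obtain ⟨k, b, h1, h2, rfl⟩ := ht
          refine (Pool.Agent.N876.TC.MM_ev ((χ γ : ℂˣ) : ℂ) codim (fun i => ρ i γ) (ρY γ) k b).trans ?_
          rw [h2 γ hγ, TensorProduct.tmul_smul, smul_smul, ← pow_add, Nat.add_sub_cancel' h1]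
          rfl
        | zero => rw [map_zero, smul_zero]
        | add x y _ _ hx hy => rw [map_add, hx, hy, smul_add]
        | smul r x _ hx => rw [map_smul, hx, smul_comm]
    · intro m w hm v
      have hact : productAction χ codim ρ ρY σ = Pool.Agent.N876.TC.MM
          (fun i => Pool.Agent.N876.TC.tot (Fintype.card κ : ℂ) (codim i) (ρ i σ)) (ρY σ) := by
        rw [← hσ]
        rfl
      rw [hact]
      constructor
      · intro hv
        obtain ⟨h1, h2⟩ := Pool.Agent.N876.FL.gen_tate' hq1 hres hY codim hm w (v := v) hv
        rw [h1]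
        refine Submodule.sum_mem _ fun k _ => ?_
        rcases h2 k with ⟨h3, h4⟩ | h3
        · exact Submodule.subset_span ⟨k, _, h3, h4, rfl⟩
        · rw [h3, TensorProduct.tmul_zero]
          exact Submodule.zero_mem _
      · refine fun hv => (Submodule.span_le.2 ?_) hv
        rintro t ⟨k, b, h1, h2, rfl⟩
        have h3 := Pool.Agent.N876.TC.ev_gen (Fintype.card κ : ℂ) codim (fun i => ρ i σ) (ρY σ) k m h2
        have h4 : ((Fintype.card κ : ℂ) ^ (∑ i, codim i (k i))) ^ m *
            (Fintype.card κ : ℂ) ^ (m * (w - ∑ i, codim i (k i))) =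
            (Fintype.card κ : ℂ) ^ (m * w) := by
          rw [← pow_mul, ← pow_add, mul_comm _ m, ← mul_add, Nat.add_sub_cancel' h1]
        rw [h4] at h3
        exact h3
  · intro hco hsm I hI j hj
    have hN0 : ∀ i, 0 < (X i).N := fun i => by have := (hX i).two_le; omega
    have h1 : ∀ i, ∃ u : ℕ, u.Coprime (X i).N ∧ u * j i ≡ (j i).gcd (X i).N [MOD (X i).N] :=
      fun i => Pool.Agent.N876.FL.exists_gcd_unit (hN0 i) (j i)
    choose u hu hu2 using h1
    obtain ⟨v, hv1, hv2⟩ := Pool.Agent.N876.TC.exists_crt (d := fun i => (X i).N) hN0 hco u hu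
    refine ⟨v, hv1, ?_⟩
    have h2 : ∑ i ∈ I, (X i).weight c f (v * j i) + ∑ i ∈ I, (lam : ℚ) / 2 <
        ∑ i ∈ I, (((X i).n : ℚ) / 2 + 1) := by
      rw [← sum_add_distrib]
      refine Finset.sum_lt_sum_of_nonempty hI fun i hi => ?_
      refine lt_of_le_of_lt (le_of_eq ?_) (hsm i ((j i).gcd (X i).N) (Nat.gcd_dvd_right _ _)
        (Pool.Agent.N876.FL.gcd_proper (hN0 i) (hj i hi)))
      congr 1
      unfold Covering.weight
      congr 1
      refine sum_congr rfl fun k _ => sum_congr rfl fun t _ => ?_
      have h2 : v * j i * (X i).a k * c ^ t ≡ (j i).gcd (X i).N * (X i).a k * c ^ t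
          [MOD (X i).N] :=
        ((((hv2 i).mul_right _).trans (hu2 i)).mul_right _).mul_right _
      rw [h2]
    refine lt_of_le_of_lt ?_ h2
    rw [sum_const, nsmul_eq_mul]
    have h3 : (1 : ℚ) ≤ I.card := by exact_mod_cast hI.card_pos
    have h4 : (0 : ℚ) ≤ (lam : ℚ) / 2 := by positivity
    nlinarith
  · intro i hc j
    have hN := (hX i).two_le
    have hN' : ((X i).N : ℚ) ≠ 0 := by exact_mod_cast (by omega : (X i).N ≠ 0)
    have hf' : (f : ℚ) ≠ 0 := by exact_mod_cast hf0.ne'
    unfold Covering.weight
    have h1 : ∀ k, ∑ t ∈ range f, (((j * (X i).a k * c ^ t) % (X i).N : ℕ) : ℚ) =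
        f * (((j * (X i).a k) % (X i).N : ℕ) : ℚ) := by
      intro k
      have h2 : ∀ t ∈ range f, (((j * (X i).a k * c ^ t) % (X i).N : ℕ) : ℚ) =
          (((j * (X i).a k) % (X i).N : ℕ) : ℚ) := by
        intro t _
        have h3 : c ^ t ≡ 1 [MOD (X i).N] := by
          have h4 : c ≡ 1 [MOD (X i).N] := by
            show c % (X i).N = 1 % (X i).N
            rw [hc, Nat.mod_eq_of_lt (by omega)]
          simpa using h4.pow t
        have h5 : j * (X i).a k * c ^ t ≡ j * (X i).a k [MOD (X i).N] := by
          have h6 := h3.mul_left (j * (X i).a k)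
          rwa [mul_one] at h6
        rw [h5]
      rw [sum_congr rfl h2, sum_const, card_range, nsmul_eq_mul]
    rw [sum_congr rfl fun k _ => h1 k, ← mul_sum]
    push_cast
    rw [mul_div_mul_left _ _ hf']

end Pool.Agent.Results.MP_950c68_ag.ProductsOfSmallLevel
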